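import Pool.Agent.helper41.HFE.Spec

/-! # Row hfe:MAB of MP_3221a1_ag (assembly of the theorem (A), (B)) -/

set_option autoImplicit false

open Polynomial Module Pool.Agent.HFN

namespace Pool.Agent.HFE

noncomputable section

theorem MAB_chi {i j a b a' b' : ℕ} (ha : a ≤ a') (hb : b ≤ b') : chi i j a b ≤ chi i j a' b' := by
  unfold chi
  exact Nat.sub_le_sub_left (Nat.mul_le_mul (Nat.sub_le_sub_left ha _) (Nat.sub_le_sub_left hb _)) _

theorem MAB : MAB_stmt := by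
  intro hAB hAFX hDEF Y i j
  obtain ⟨Z, hc, hH, hab⟩ := hAFX Y
  obtain ⟨h1, h2, h3⟩ := hAB Z i j
  have hd : df Z i j + Pool.Agent.helper97.FP.hilbert (Pool.Agent.helper97.FP.doubleIdeal Y) i j = 3 * Y.card := by
    have e1 := hDEF Z i j
    have e2 := hH i j
    rw [← e2, hc] at e1
    omega
  rw [hc] at h2 h3
  refine ⟨fun a b F hF hF0 => ?_, fun h => ?_, fun hi hj h => ?_⟩
  · obtain ⟨f, hf, hf0, hln⟩ := (hab a b).1 F hF hF0
    have e1 := h1 f hf0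
    have e2 : chi i j (dX f) (dY f) ≤ chi i j a b := MAB_chi hf.1 hf.2
    rw [hln]
    omega
  · obtain ⟨f, hf0, hCD, hle⟩ := h2 h
    obtain ⟨F, hF, hF0, hln⟩ := (hab (dX f) (dY f)).2 f ⟨le_rfl, le_rfl⟩ hf0
    refine ⟨dX f, dY f, F, hF, hF0, hCD, ?_⟩
    rw [hln]
    omega
  · obtain ⟨f, hf0, hCD, h4, hle⟩ := h3 hi hj h
    obtain ⟨F, hF, hF0, hln⟩ := (hab (dX f) (dY f)).2 f ⟨le_rfl, le_rfl⟩ hf0
    refine ⟨dX f, dY f, F, hF, hF0, hCD, h4, ?_⟩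
    rw [hln]
    omega

end

end Pool.Agent.HFE
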